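import Pool.Agent.Run7.h104.Q2.FINAL
import Pool.Agent.W767.HL.Main

set_option autoImplicit false

/-!
# MP_5bfbcb, Q2: log-integrability of half-lacunary Fourier series

Let `n k` be negative integers with `liminf n (k + 1) / n k > 1` (the lower limit is taken in the
extended reals), let `a : ℤ → ℂ`, and let `g = ∑ a (n k) e (n k) + ∑_{j ≥ 0} a j e j`, both series
converging in `L²(ℝ/ℤ)`.  If `g` is not the zero element of `L²`, then `log |g|` belongs to
`L^p(ℝ/ℤ)` for some `p > 0`.  (Lean sets `log 0 = 0`; therefore the statement contains also that the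
set of zeros of `g` is null, which is the theorem of the starting file `HalfLacunaryZeroSets`.)

Idea of the proof.  It is enough to bound the measure of `{|g| ≤ exp (-σ)}` by `C σ ^ (-p)`, for
trigonometric polynomials `G`, uniformly.  For the levels `D_i = 2 ^ i D_0` let `f_i` be `G` without
the negative frequencies beyond `m (K_i)`, where the `l²` norm of the removed coefficients is
`exp (-D_i)`, and let `ell_i` be the least of the numbers `D_a / (κ m (K_a))`, `a ≤ i`.  Then `f_i` is
bounded near the circle, up to the distance `κ ell_i / 4`, and approximates `G` with precision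
`exp (-D_i)`; from a point at distance `ell_i` of the circle, the rotation inequality shows that `|f_k|`
is at least `exp (-A D_i)` on a fixed proportion of every circle of small depth, `k > i`.  A maximum
principle for functions glued from the `log |f_j|` over nested annuli bounds the harmonic measure of
`{|g| ≤ exp (-σ)}` seen from the points where `|f_k|` is not small.  If `ell` decreases from `D_i` to
`D_{i+r}`, this improves the supremum of the harmonic measure by a factor; if it does not, then `f_k`
is analytic in an annulus which is not too thin, and a local estimate there, iterated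
horizontally, gives a gain which is exponential in the number of levels.
-/

open MeasureTheory Filter

namespace Pool.Agent.Results.MP_5bfbcb_an.LogIntegrability

/-- For a half-lacunary Fourier series `g = g₁ + g₂` in `L²(ℝ/ℤ)` (negative frequencies `n k` in a
Hadamard lacunary sequence, arbitrary nonnegative frequencies) which is not zero, `g` is different
from `0` almost everywhere and `log |g|` is in `L^p` for some `p > 0`. -/
theorem result (n : ℕ → ℤ) (hneg : ∀ k, n k < 0)
    (hlac : 1 < liminf (fun k => (((n (k + 1) : ℝ) / (n k : ℝ) : ℝ) : EReal)) atTop)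
    (a : ℤ → ℂ)
    (g₁ g₂ : Lp ℂ 2 (AddCircle.haarAddCircle : Measure (AddCircle (1 : ℝ))))
    (h₁ : HasSum (fun k : ℕ => a (n k) • fourierLp 2 (n k)) g₁)
    (h₂ : HasSum (fun j : ℕ => a (j : ℤ) • fourierLp 2 (j : ℤ)) g₂)
    (hg : g₁ + g₂ ≠ 0) :
    (AddCircle.haarAddCircle : Measure (AddCircle (1 : ℝ)))
      {θ : AddCircle (1 : ℝ) | (g₁ + g₂ : Lp ℂ 2 AddCircle.haarAddCircle) θ = 0} = 0 ∧
    ∃ p : ℝ, 0 < p ∧
      MemLp (fun θ : AddCircle (1 : ℝ) =>
        Real.log ‖(g₁ + g₂ : Lp ℂ 2 AddCircle.haarAddCircle) θ‖) (ENNReal.ofReal p)
        (AddCircle.haarAddCircle : Measure (AddCircle (1 : ℝ))) :=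
  ⟨Pool.Agent.W767.HL.main n hneg hlac a g₁ g₂ h₁ h₂ hg,
    Pool.Agent.Run7.h104.Q2.final n hneg hlac a g₁ g₂ h₁ h₂ hg⟩

end Pool.Agent.Results.MP_5bfbcb_an.LogIntegrability
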